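import Pool.Agent.HP27.CL.B

/-!
# Chowla's conjecture in progressions for arbitrary polynomials times a linear factor whose constant term is any small multiple
of any integer near a random number with small collision probability

No structure of the random number `X` is used, only that the sums of some number `q` of independent copies of `X` collide with
a probability which is minimal up to a power of the logarithm.

New: the estimate with arbitrary coefficients for one random shift or reflection under this hypothesis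
(`Pool.Agent.HP27.EN`, `Pool.Agent.HP27.CL`). From the starting files: the majorant and orthogonality estimates
(`Pool.Agent.TH872.Sq`), Davenport's bound for exponential sums with the Liouville function.
-/

set_option autoImplicit false

namespace Pool.Agent.Results.MP_d639b3_nt.CollisionConstants

open Finset Filter

/-- The Liouville function on the integers, `λ(-m) = λ(m)` and `λ(0) = 0`. -/
def lam (m : ℤ) : ℤ := if m = 0 then 0 else (-1) ^ ArithmeticFunction.cardFactors m.natAbs

/-- For all `l`, all residue classes `r` modulo `q ≤ log ^ T N` and all integers `u`, `w` with `|α l u| ≤ B N` and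
`|α l w| ≤ B N`: the sum of `λ(f l (n) (α l n + h))` over the integers `n` with `u ≤ n ≤ w` and `n ≡ r mod q` is at most
`N / log ^ U N` in absolute value. -/
def Small (B T U N : ℕ) {M : ℕ} (f : Fin M → Polynomial ℤ) (α : Fin M → ℤ) (h : ℤ) : Prop :=
  ∀ l, ∀ q : ℕ, 1 ≤ q → (q : ℝ) ≤ Real.log N ^ T → ∀ r u w : ℤ, |α l * u| ≤ B * N → |α l * w| ≤ B * N →
    |((∑ n ∈ (Icc u w).filter (fun n => n ≡ r [ZMOD q]), lam ((f l).eval n * (α l * n + h)) : ℤ) : ℝ)| ≤ N / Real.log N ^ U

open Classical in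
/-- The probability that `|X₁ + ... + X_q - X'₁ - ... - X'_q| ≤ 1`, if the `X_j` and `X'_j` are independent random numbers
which take the value `a x` with the probability `p x`. -/
noncomputable def collision {ι : Type} [Fintype ι] (q : ℕ) (p a : ι → ℝ) : ℝ :=
  ∑ x : Fin q → ι, ∑ y : Fin q → ι, if |∑ j, a (x j) - ∑ j, a (y j)| ≤ 1 then (∏ j, p (x j)) * ∏ j, p (y j) else 0

lemma coll_mono {ι : Type} [Fintype ι] (q : ℕ) (p a : ι → ℝ) (hp : ∀ x, 0 ≤ p x) (j : ℕ) (hj : 1 ≤ j) :
    Pool.Agent.HP27.EN.coll q p (fun x => j * a x) ≤ collision q p a := by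
  classical
  unfold Pool.Agent.HP27.EN.coll collision
  apply sum_le_sum
  intro x _
  apply sum_le_sum
  intro y _
  have h0 : 0 ≤ (∏ i, p (x i)) * ∏ i, p (y i) := mul_nonneg (prod_nonneg fun i _ => hp _) (prod_nonneg fun i _ => hp _)
  by_cases h : |∑ i, (j : ℝ) * a (x i) - ∑ i, (j : ℝ) * a (y i)| ≤ 1
  · rw [if_pos h, if_pos]
    rw [← mul_sum, ← mul_sum, ← mul_sub, abs_mul, abs_of_nonneg (Nat.cast_nonneg j)] at h
    have hjr : (1 : ℝ) ≤ j := by exact_mod_cast hj
    have := abs_nonneg (∑ i, a (x i) - ∑ i, a (y i))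
    nlinarith
  · rw [if_neg h]
    split_ifs
    · exact h0
    · exact le_rfl

lemma pi_one (Ω : Fin 1 → Finset ℕ) (p : Fin 1 → ℕ → ℝ) (P : ℕ → Prop) [DecidablePred P] [DecidablePred fun m : Fin 1 → ℕ => ¬ P (m 0)] :
    ∑ m ∈ Fintype.piFinset Ω, (if ¬ P (m 0) then ∏ i, p i (m i) else 0) = ∑ v ∈ Ω 0, (if P v then 0 else p 0 v) := by
  refine sum_nbij' (fun m => m 0) (fun v => fun _ => v) ?_ ?_ ?_ ?_ ?_
  · intro m hm
    exact Fintype.mem_piFinset.1 hm 0
  · intro v hv
    rw [Fintype.mem_piFinset]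
    intro i
    rw [Subsingleton.elim i 0]
    exact hv
  · intro m _
    funext i
    rw [Subsingleton.elim i 0]
  · intro v _
    rfl
  · intro m _
    by_cases h : P (m 0)
    · rw [if_neg (fun h' => h' h), if_pos h]
    · rw [if_pos h, if_neg h, Fin.prod_univ_one]

open Classical in
/-- Let `q ≥ 1`, `κ`, `B`, `T`, `J`, `W` and `U` be fixed and let `N` be large. Let `X = a x` be a random real number in
`[0, B N]` with an ARBITRARY distribution on a finite set, such that the sums of `q` and of further `q` independent copies of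
`X` differ by at most `1` with a probability of at most `log ^ κ N / N`. Let at most `log ^ T N` pairs of a polynomial `f l`
with integer coefficients (of any degree) and of an integer `α l ≠ 0` be given. Then the following holds with a probability of
at least `1 - 1 / log ^ U N` for ALL the integers `h ≥ 0` with `|h - X| ≤ log ^ W N` and ALL the factors `1 ≤ j ≤ log ^ J N`:
for all `l` the sum `∑ λ(f l (n) (α l n + j h))` over the integers `n ≡ r mod m` in an arbitrary interval `[u, w]` of integers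
with `|α l u|, |α l w| ≤ B N`, for all residue classes `r` modulo all `m ≤ log ^ T N`, is at most `N / log ^ U N` in absolute
value. -/
theorem result (q : ℕ) (hq : 1 ≤ q) (κ B T J W U : ℕ) :
    ∃ N₀ : ℕ, ∀ N : ℕ, N₀ ≤ N → ∀ (ι : Type) [Fintype ι] (p a : ι → ℝ), (∀ x, 0 ≤ p x) → ∑ x, p x = 1 →
      (∀ x, 0 ≤ a x ∧ a x ≤ B * N) → collision q p a ≤ Real.log N ^ κ / N →
      ∀ M : ℕ, (M : ℝ) ≤ Real.log N ^ T → ∀ (f : Fin M → Polynomial ℤ) (α : Fin M → ℤ), (∀ l, α l ≠ 0) →
        1 - 1 / Real.log N ^ U ≤ ∑ x, (if ∀ h : ℕ, |(h : ℝ) - a x| ≤ Real.log N ^ W → ∀ j : ℕ, 1 ≤ j → (j : ℝ) ≤ Real.log N ^ J →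
          Small B T U N f α ((j : ℤ) * h) then p x else 0) := by
  obtain ⟨F, W', U', hUU, N1, h1⟩ := Pool.Agent.HP27.EN.near_fam 1 (fun _ => q) (fun _ => hq) 1 (κ + J + 1) (W + J) (U + J + 2)
  obtain ⟨N2, h2⟩ := Pool.Agent.HP27.CL.poly q hq F W' T U'
  obtain ⟨N3, h3⟩ := Pool.Agent.HP27.CL.ev (4 * ((B : ℝ) + 1) + 3) 0
  refine ⟨N1 + N2 + N3 + 1, fun N hN ι _ p a hp0 hp1 ha hcoll M hM f α hα => ?_⟩
  obtain ⟨hl4, -⟩ := h3 N (by omega)
  have hN0 : (0 : ℝ) < N := by exact_mod_cast (by omega : 0 < N)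
  have hB0 : (0 : ℝ) ≤ B := Nat.cast_nonneg B
  have hl1 : 1 ≤ Real.log N := by linarith
  have hl0 : 0 < Real.log N := by linarith
  have hlJ : 1 ≤ Real.log N ^ J := one_le_pow₀ hl1
  obtain ⟨C, hC⟩ : ∃ C : ℕ, C = (B + 1) * ⌈Real.log N ^ J⌉₊ := ⟨_, rfl⟩
  have hC1 : ((B : ℝ) + 1) * Real.log N ^ J ≤ C := by
    rw [hC]
    push_cast
    exact mul_le_mul_of_nonneg_left (Nat.le_ceil _) (by linarith)
  have hC2 : (C : ℝ) ≤ Real.log N ^ (J + 1) := by
    rw [hC]
    push_cast
    have := (Nat.ceil_lt_add_one (show 0 ≤ Real.log N ^ J by positivity)).le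
    calc ((B : ℝ) + 1) * (⌈Real.log N ^ J⌉₊ : ℝ) ≤ ((B : ℝ) + 1) * (2 * Real.log N ^ J) :=
          mul_le_mul_of_nonneg_left (by linarith) (by linarith)
      _ = (2 * ((B : ℝ) + 1)) * Real.log N ^ J := by ring
      _ ≤ Real.log N * Real.log N ^ J := mul_le_mul_of_nonneg_right (by linarith) (by linarith)
      _ = Real.log N ^ (J + 1) := by ring
  have hC0 : 1 ≤ C := by
    have : (1 : ℝ) ≤ C := by nlinarith
    exact_mod_cast this
  obtain ⟨N', hN'⟩ : ∃ N' : ℕ, N' = C * N := ⟨_, rfl⟩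
  have hN'r : (N' : ℝ) = C * N := by rw [hN']; push_cast; ring
  have hNN : N ≤ N' := by rw [hN']; exact Nat.le_mul_of_pos_left _ (by omega)
  have hNNr : (N : ℝ) ≤ N' := by exact_mod_cast hNN
  have hll : Real.log N ≤ Real.log N' := Real.log_le_log hN0 hNNr
  have hl1' : 1 ≤ Real.log N' := hl1.trans hll
  have hpw : ∀ A : ℕ, Real.log N ^ A ≤ Real.log N' ^ A := fun A => pow_le_pow_left₀ hl0.le hll A
  obtain ⟨Q, hQ⟩ : ∃ Q : ℕ, Q = ⌊Real.log N ^ T⌋₊ := ⟨_, rfl⟩
  have hQ1 : (Q : ℝ) ≤ Real.log N ^ T := by rw [hQ]; exact Nat.floor_le (by positivity)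
  obtain ⟨E, hE⟩ : ∃ E : ℝ, E = 3 * ((N' : ℝ) / Real.log N' ^ U') := ⟨_, rfl⟩
  have hEN : E ≤ N / Real.log N ^ U := by
    rw [hE]
    have g0 : (N' : ℝ) ≤ Real.log N ^ (J + 1) * N := by
      rw [hN'r]
      exact mul_le_mul_of_nonneg_right hC2 hN0.le
    have g1 : (N' : ℝ) / Real.log N' ^ U' ≤ (Real.log N ^ (J + 1) * N) / Real.log N ^ (U + J + 2) := by
      apply div_le_div₀ (by positivity) g0 (by positivity)
      calc Real.log N ^ (U + J + 2) ≤ Real.log N ^ U' := pow_le_pow_right₀ hl1 hUU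
        _ ≤ _ := hpw U'
    have g2 : (Real.log N ^ (J + 1) * N) / Real.log N ^ (U + J + 2) = N / Real.log N ^ (U + 1) := by
      have e : Real.log N ^ (U + J + 2) = Real.log N ^ (J + 1) * Real.log N ^ (U + 1) := by
        rw [← pow_add]
        congr 1
        ring
      rw [e]
      field_simp
    rw [g2] at g1
    have g3 : 3 * ((N : ℝ) / Real.log N ^ (U + 1)) ≤ N / Real.log N ^ U := by
      rw [mul_div_assoc', div_le_div_iff₀ (by positivity) (by positivity), pow_succ]
      have : 0 ≤ (N : ℝ) * Real.log N ^ U := by positivity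
      nlinarith
    linarith
  have hsm : ∀ h : ℤ, Pool.Agent.HP27.CL.Sm Q N' E f α h → Small B T U N f α h := by
    intro h hs l m hm1 hm2 r u w hu hw
    refine (hs l m hm1 ?_ r u w ?_ ?_).trans hEN
    · rw [hQ]
      exact Nat.le_floor hm2
    · refine hu.trans ?_
      have : (B : ℝ) * N ≤ N' := by
        rw [hN'r]
        apply mul_le_mul_of_nonneg_right _ hN0.le
        nlinarith
      exact_mod_cast this
    · refine hw.trans ?_
      have : (B : ℝ) * N ≤ N' := by
        rw [hN'r]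
        apply mul_le_mul_of_nonneg_right _ hN0.le
        nlinarith
      exact_mod_cast this
  -- one multiple
  have hone : ∀ j : ℕ, 1 ≤ j → (j : ℝ) ≤ Real.log N ^ J →
      ∑ x, (if ∃ h : ℕ, |(h : ℝ) - a x| ≤ Real.log N ^ W ∧ ¬ Small B T U N f α ((j : ℤ) * h) then p x else 0) ≤
        1 / Real.log N ^ (U + J + 2) := by
    intro j hj1 hj2
    have hjr : (1 : ℝ) ≤ j := by exact_mod_cast hj1
    have h4 := h1 N' (by omega) (fun m => ¬ Pool.Agent.HP27.CL.Sm Q N' E f α ((m 0 : ℕ) : ℤ)) (fun Ω p' hlaw => by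
      have g := h2 N' (by omega) (Ω 0) (p' 0) (hlaw 0) M (hM.trans (hpw T)) Q (hQ1.trans (hpw T)) f α hα
      rw [← hE] at g
      refine le_trans (le_of_eq ?_) g
      have e := pi_one Ω p' (fun v => Pool.Agent.HP27.CL.Sm Q N' E f α ((v : ℕ) : ℤ))
      convert e) (fun _ => ι) (fun _ => p) (fun _ x => j * a x) (fun _ => hp0) (fun _ => hp1) (fun _ x => by
        obtain ⟨g1, g2⟩ := ha x
        have g3 : 0 ≤ Real.log N' ^ (W + J) := by positivity
        refine ⟨by nlinarith [mul_nonneg (Nat.cast_nonneg (α := ℝ) j) g1], ?_⟩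
        rw [hN'r]
        push_cast
        rw [one_mul]
        calc (j : ℝ) * a x ≤ Real.log N ^ J * (B * N) := mul_le_mul hj2 g2 g1 (by positivity)
          _ ≤ ((B : ℝ) + 1) * Real.log N ^ J * N := by
              have : 0 ≤ Real.log N ^ J * N := by positivity
              nlinarith
          _ ≤ C * N := mul_le_mul_of_nonneg_right hC1 hN0.le) (fun _ => by
        have g1 := (coll_mono q p a hp0 j hj1).trans hcoll
        calc (N' : ℝ) * Pool.Agent.HP27.EN.coll q p (fun x => j * a x) ≤ N' * (Real.log N ^ κ / N) :=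
              mul_le_mul_of_nonneg_left g1 (by positivity)
          _ = C * Real.log N ^ κ := by
              rw [hN'r]
              field_simp
          _ ≤ Real.log N ^ (J + 1) * Real.log N ^ κ := mul_le_mul_of_nonneg_right hC2 (by positivity)
          _ = Real.log N ^ (κ + J + 1) := by ring
          _ ≤ _ := hpw _)
    have h5 : ∑ x, (if ∃ h : ℕ, |(h : ℝ) - a x| ≤ Real.log N ^ W ∧ ¬ Small B T U N f α ((j : ℤ) * h) then p x else 0) ≤
        ∑ x : Fin 1 → ι, (if ∃ h : Fin 1 → ℕ, (∀ i, |(h i : ℝ) - j * a (x i)| ≤ Real.log N' ^ (W + J)) ∧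
          ¬ Pool.Agent.HP27.CL.Sm Q N' E f α ((h 0 : ℕ) : ℤ) then ∏ i, p (x i) else 0) := by
      rw [← (Equiv.funUnique (Fin 1) ι).symm.sum_comp]
      apply sum_le_sum
      intro x _
      have e1 : ∏ i : Fin 1, p (((Equiv.funUnique (Fin 1) ι).symm x) i) = p x := by
        rw [Fin.prod_univ_one]
        rfl
      rw [e1]
      by_cases hx : ∃ h : ℕ, |(h : ℝ) - a x| ≤ Real.log N ^ W ∧ ¬ Small B T U N f α ((j : ℤ) * h)
      · rw [if_pos hx, if_pos]
        obtain ⟨h, g1, g2⟩ := hx
        refine ⟨fun _ => j * h, fun i => ?_, fun g3 => g2 (hsm _ ?_)⟩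
        · have e2 : ((Equiv.funUnique (Fin 1) ι).symm x) i = x := rfl
          rw [e2]
          push_cast
          rw [← mul_sub, abs_mul, abs_of_nonneg (Nat.cast_nonneg j)]
          calc (j : ℝ) * |(h : ℝ) - a x| ≤ Real.log N ^ J * Real.log N ^ W :=
                mul_le_mul hj2 g1 (abs_nonneg _) (by positivity)
            _ = Real.log N ^ (W + J) := by ring
            _ ≤ _ := hpw _
        · push_cast at g3
          exact g3
      · rw [if_neg hx]
        split_ifs
        · exact hp0 x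
        · exact le_rfl
    refine (h5.trans h4).trans ?_
    apply one_div_le_one_div_of_le (by positivity)
    exact hpw _
  -- all multiples
  obtain ⟨S, hS⟩ : ∃ S : Finset ℕ, S = (Icc 1 ⌊Real.log N ^ J⌋₊) := ⟨_, rfl⟩
  have hScard : (S.card : ℝ) ≤ Real.log N ^ J := by
    rw [hS, Nat.card_Icc, Nat.add_sub_cancel]
    exact Nat.floor_le (by positivity)
  have hpt : ∀ x, p x ≤ (if ∀ h : ℕ, |(h : ℝ) - a x| ≤ Real.log N ^ W → ∀ j : ℕ, 1 ≤ j → (j : ℝ) ≤ Real.log N ^ J →
      Small B T U N f α ((j : ℤ) * h) then p x else 0) +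
      ∑ j ∈ S, (if ∃ h : ℕ, |(h : ℝ) - a x| ≤ Real.log N ^ W ∧ ¬ Small B T U N f α ((j : ℤ) * h) then p x else 0) := by
    intro x
    have hnn : ∀ j : ℕ, 0 ≤ (if ∃ h : ℕ, |(h : ℝ) - a x| ≤ Real.log N ^ W ∧ ¬ Small B T U N f α ((j : ℤ) * h) then p x else 0) := by
      intro j
      split_ifs
      · exact hp0 x
      · exact le_rfl
    by_cases hx : ∀ h : ℕ, |(h : ℝ) - a x| ≤ Real.log N ^ W → ∀ j : ℕ, 1 ≤ j → (j : ℝ) ≤ Real.log N ^ J →
      Small B T U N f α ((j : ℤ) * h)
    · rw [if_pos hx]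
      have := sum_nonneg fun j (_ : j ∈ S) => hnn j
      linarith
    · rw [if_neg hx, zero_add]
      push Not at hx
      obtain ⟨h, g1, j, g2, g3, g4⟩ := hx
      have hjS : j ∈ S := by
        rw [hS, mem_Icc]
        exact ⟨g2, Nat.le_floor g3⟩
      calc p x = (if ∃ h : ℕ, |(h : ℝ) - a x| ≤ Real.log N ^ W ∧ ¬ Small B T U N f α ((j : ℤ) * h) then p x else 0) := by
            rw [if_pos ⟨h, g1, g4⟩]
        _ ≤ _ := single_le_sum (f := fun j : ℕ => if ∃ h : ℕ, |(h : ℝ) - a x| ≤ Real.log N ^ W ∧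
            ¬ Small B T U N f α ((j : ℤ) * h) then p x else 0) (fun j _ => hnn j) hjS
  have h6 := sum_le_sum (s := (univ : Finset ι)) fun x _ => hpt x
  rw [hp1, sum_add_distrib, sum_comm] at h6
  have h7 : ∑ j ∈ S, ∑ x, (if ∃ h : ℕ, |(h : ℝ) - a x| ≤ Real.log N ^ W ∧ ¬ Small B T U N f α ((j : ℤ) * h) then p x else 0) ≤
      1 / Real.log N ^ U := by
    calc _ ≤ ∑ _j ∈ S, 1 / Real.log N ^ (U + J + 2) := by
          apply sum_le_sum
          intro j hj
          rw [hS, mem_Icc] at hj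
          refine hone j hj.1 ?_
          exact (Nat.cast_le.2 hj.2).trans (Nat.floor_le (by positivity))
      _ = S.card * (1 / Real.log N ^ (U + J + 2)) := by rw [sum_const, nsmul_eq_mul]
      _ ≤ Real.log N ^ J * (1 / Real.log N ^ (U + J + 2)) := mul_le_mul_of_nonneg_right hScard (by positivity)
      _ = 1 / Real.log N ^ (U + 2) := by
          have e : Real.log N ^ (U + J + 2) = Real.log N ^ J * Real.log N ^ (U + 2) := by
            rw [← pow_add]
            congr 1
            ring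
          rw [e]
          field_simp
      _ ≤ 1 / Real.log N ^ U := by
          apply one_div_le_one_div_of_le (by positivity)
          exact pow_le_pow_right₀ hl1 (by omega)
  linarith

end Pool.Agent.Results.MP_d639b3_nt.CollisionConstants
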