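import Mathlib
import Pool.Agent.H39x.CU.Fin

set_option autoImplicit false

/-!
# Liouville's function at irreducible cubic polynomials

Let `f = X ^ 3 + a X ^ 2 + b X + c` be an irreducible polynomial with integral coefficients that is not of the
form `(X + t) ^ 3 + m` (that is, `a ^ 2 ≠ 3 b`). The polynomials considered are `f_D(T) = D ^ 3 f(T / D)
= T ^ 3 + a D T ^ 2 + b D ^ 2 T + c D ^ 3`, for all nonzero multiples `D` of a fixed number; they are monic,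
irreducible, and generate the same field as `f`. (They are also the restrictions of the binary cubic form of
`f` to the lines `y = D`.)

* For EVERY such `f` the value `λ(K D)`, `K = 27 f(-a / 3) = 2 a ^ 3 - 9 a b + 27 c`, is taken by `λ(f_D(n))`
  infinitely often, more precisely in every set `N < |n| ≤ Q N ^ 3`. For `a = 0` this is the value
  `-λ(f_D(0))`, the opposite of the value at the origin.
* BOTH values are taken infinitely often, or `λ(w) = λ(K)` for all nonzero values `w = W(u, v)` of an explicit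
  binary form `W` of degree ten (so that one pair `(u, v)` with `λ(W(u, v)) = -λ(K)` suffices).
* Such a pair is found for all cubics with `|a| ≤ 1`, `|b|, |c| ≤ 20`, and for the two parameter family
  `X ^ 3 + s ^ 2 X + 2 m n s ^ 2`, `s = 54 n ^ 2 - m ^ 2`.

The first two parts hold for all squarefree monic cubics with `a ^ 2 ≠ 3 b`, `f(-a / 3) ≠ 0`, the first one for all
completely multiplicative functions with values `1` and `-1` in the place of `λ`.

Method: a new five term relation between the values of a general cubic polynomial. For the cubic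
`Φ(w) = w ^ 3 + α w ^ 2 + 3 γ δ w + γ ^ 2 δ` (every cubic with a rational centre `u / v` has this form) put
`m₁ = -α - δ (r - 1) (r + 2)`, `n₃ = m₁ - δ`, `n₁ = r m₁ - γ`, `n₂ = -(r + 1) m₁ - γ`, `S = α - δ - 2 γ` and
`m₂ = n₃ + Φ(n₃) / (S δ)`. Then `Φ(w) = (w - n₁) (w - n₂) (w - n₃) + S (w - m₁) (w - m₂)`, and therefore
`Φ(n₁) Φ(n₂) Φ(n₃) = S ^ 3 Φ(m₁) Φ(m₂)` with a constant `S` that does not depend on `r`.
-/

namespace Pool.Agent.Results.MP_d639b3_nt.MonicCubics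

open Polynomial

/-- Liouville's function `λ(z) = (-1) ^ Ω(|z|)`. -/
noncomputable def lam (z : ℤ) : ℤ := (-1) ^ ArithmeticFunction.cardFactors z.natAbs

/-- The polynomial function `f_D(T) = D ^ 3 f(T / D)`, `f = X ^ 3 + a X ^ 2 + b X + c`. -/
def F (a b c D T : ℤ) : ℤ := T ^ 3 + a * D * T ^ 2 + b * D ^ 2 * T + c * D ^ 3

/-- `K = 27 f(-a / 3)`. -/
def K (a b c : ℤ) : ℤ := 2 * a ^ 3 - 9 * a * b + 27 * c

/-- `-27` times the discriminant of `f`. -/
def disc27 (a b c : ℤ) : ℤ := K a b c ^ 2 - 4 * (a ^ 2 - 3 * b) ^ 3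

/-- The binary form `W(u, v) = v B C (9 A B C - B ^ 3 - 54 C ^ 2)` with `A = 3 u + a v`,
`B = 3 u ^ 2 + 2 a u v + b v ^ 2`, `C = u ^ 3 + a u ^ 2 v + b u v ^ 2 + c v ^ 3`. -/
def W (a b c u v : ℤ) : ℤ :=
  let A := 3 * u + a * v
  let B := 3 * u ^ 2 + 2 * a * u * v + b * v ^ 2
  let C := u ^ 3 + a * u ^ 2 * v + b * u * v ^ 2 + c * v ^ 3
  v * B * C * (9 * A * B * C - B ^ 3 - 54 * C ^ 2)

/-- There is a `Q` such that every set `N < |n| ≤ Q N ^ 3` contains an `n` with `f_D(n) ≠ 0` and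
`h(|f_D(n)|) = ε`. -/
def Takes (h : ℕ → ℤ) (a b c D ε : ℤ) : Prop :=
  ∃ Q : ℤ, ∀ N : ℕ, 1 ≤ N → ∃ n : ℤ, (N : ℤ) < |n| ∧ |n| ≤ Q * N ^ 3 ∧ F a b c D n ≠ 0 ∧
    h (F a b c D n).natAbs = ε

/-- For all nonzero multiples `D` of some `D₀ ≠ 0` both values of `λ` are taken at `f_D`. -/
def BothSigns (a b c : ℤ) : Prop :=
  ∃ D₀ : ℤ, D₀ ≠ 0 ∧ ∀ D : ℤ, D ≠ 0 → D₀ ∣ D →
    Takes (fun n => lam n) a b c D 1 ∧ Takes (fun n => lam n) a b c D (-1)

/-- `h` is completely multiplicative with values `1` and `-1` on the positive integers. -/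
def Signs (h : ℕ → ℤ) : Prop :=
  (∀ m n : ℕ, m ≠ 0 → n ≠ 0 → h (m * n) = h m * h n) ∧ ∀ n : ℕ, n ≠ 0 → h n = 1 ∨ h n = -1

lemma lam_eq : (fun n : ℕ => lam n) = Pool.Agent.H39x.CU.lamN := by
  funext n
  rfl

lemma lam_eq' (z : ℤ) : lam z = Pool.Agent.H39x.CU.lamN z.natAbs := rfl

lemma W_eq (a b c u v : ℤ) : W a b c u v = Pool.Agent.H39x.CU.Wt a b c u v := rfl

/-- **Liouville's function at monic cubic polynomials.** -/
theorem result :
    (∀ a b c : ℤ, Irreducible (X ^ 3 + C a * X ^ 2 + C b * X + C c : ℤ[X]) → a ^ 2 ≠ 3 * b →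
      ∀ D : ℤ, D ≠ 0 → 8 * (a ^ 2 - 3 * b) ^ 4 * K a b c * disc27 a b c ^ 7 ∣ D →
        Takes (fun n => lam n) a b c D (lam (K a b c * D))) ∧
    (∀ a b c : ℤ, a ^ 2 ≠ 3 * b → K a b c ≠ 0 → disc27 a b c ≠ 0 →
      (∀ D : ℤ, D ≠ 0 → 8 * (a ^ 2 - 3 * b) ^ 4 * K a b c * disc27 a b c ^ 7 ∣ D →
        ∀ h : ℕ → ℤ, Signs h → Takes h a b c D (h (6 * K a b c * D).natAbs)) ∧
      (BothSigns a b c ∨ ∀ u v : ℤ, W a b c u v ≠ 0 → lam (W a b c u v) = lam (K a b c)) ∧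
      (|a| ≤ 1 → |b| ≤ 20 → |c| ≤ 20 → BothSigns a b c)) ∧
    (∀ m n s : ℤ, m ≠ 0 → n ≠ 0 → s ≠ 0 → s = 54 * n ^ 2 - m ^ 2 →
      BothSigns 0 (s ^ 2) (2 * m * n * s ^ 2)) := by
  refine ⟨?_, ?_, ?_⟩
  · intro a b c hf hq D hD hdvd
    exact Pool.Agent.H39x.CU.fin2 hf hq hD hdvd
  · intro a b c hq hK hd
    refine ⟨?_, ?_, ?_⟩
    · intro D hD hdvd h hh
      exact Pool.Agent.H39x.CU.fin1 hq hK (sub_ne_zero.1 hd) hD hdvd ⟨hh.1, hh.2⟩
    · by_cases hall : ∀ u v : ℤ, W a b c u v ≠ 0 → lam (W a b c u v) = lam (K a b c)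
      · exact Or.inr hall
      · left
        push_neg at hall
        obtain ⟨u, v, h1, h2⟩ := hall
        exact Pool.Agent.H39x.CU.fin3 hq hK (sub_ne_zero.1 hd) h1 h2
    · intro ha hb hc
      exact Pool.Agent.H39x.CU.fin4 ha hb hc hq hK (sub_ne_zero.1 hd)
  · intro m n s hm hn hs hs'
    subst hs'
    exact Pool.Agent.H39x.CU.fin5 hm hn hs

end Pool.Agent.Results.MP_d639b3_nt.MonicCubics
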