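import Pool.Agent.HP25.PC.C
import Pool.Agent.HP25.OS.E

/-!
# Chowla's conjecture for `f(T) (α T + h)`, for all integers `h` near almost all values of real polynomials at integers with
restricted digits

Let `b ≥ 2`, let `D 0, ..., D (k - 1)` be sets of at least two digits in base `b`, and let `S b D k` be the set of the integers
`0 ≤ m < b ^ k` whose digit number `i` belongs to `D i` for all `i`. For every real polynomial `P` of degree `e ≥ 2` (with a
leading coefficient neither large nor small, and the other coefficients arbitrary as long as `P = O(N)` on the set, `N = b ^ (e k)`),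
for almost all `m` in `S b D k` ALL the integers `h` with `|h - P(m)| ≤ log ^ W N` satisfy
`|∑ λ(f(n) (α n + h))| ≤ N / log ^ U N` for all windows and progressions, for all members `(f, α)` of an arbitrary family of
at most `log ^ T N` pairs. The values `P(m)` are as sparse as `N ^ c`, `c = log |D i| / (e log b)`.

Method: moments of Weyl sums with real polynomials over integers with random digits (`Pool/Agent/HP25/PD`), the estimate for one
random shift with arbitrary coefficients under a bounded moment (`Pool/Agent/HP25/OS`), windows and progressions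
(`Pool/Agent/HP25/PC`).
-/

set_option autoImplicit false

namespace Pool.Agent.Results.MP_d639b3_nt.RealPolynomialConstants

open Finset

/-- The Liouville function on the integers, `λ(-m) = λ(m)` and `λ(0) = 0`. -/
def lam (m : ℤ) : ℤ := if m = 0 then 0 else (-1) ^ ArithmeticFunction.cardFactors m.natAbs

/-- the integers `0 ≤ m < b ^ k` whose digit number `i` in base `b` belongs to `D i` for all `i < k` -/
def S (b : ℕ) (D : ℕ → Finset ℕ) (k : ℕ) : Finset ℕ := (range (b ^ k)).filter (fun m : ℕ => ∀ i < k, m / b ^ i % b ∈ D i)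

/-- For all `l`, all residue classes `r` modulo `q ≤ log ^ T N` and all integers `u`, `w` with `α l |u| ≤ B N` and
`α l |w| ≤ B N`: the sum of `λ(f l (n) (α l n + h))` over the integers `n` with `u ≤ n ≤ w` and `n ≡ r mod q` is at most
`N / log ^ U N` in absolute value. -/
def Small (B T U N : ℕ) {L : ℕ} (f : Fin L → Polynomial ℤ) (α : Fin L → ℕ) (h : ℤ) : Prop :=
  ∀ l, ∀ q : ℕ, 1 ≤ q → (q : ℝ) ≤ Real.log N ^ T → ∀ r u w : ℤ, (α l : ℤ) * |u| ≤ B * N → (α l : ℤ) * |w| ≤ B * N →
    |((∑ n ∈ (Icc u w).filter (fun n => n ≡ r [ZMOD q]), lam ((f l).eval n * (α l * n + h)) : ℤ) : ℝ)| ≤ N / Real.log N ^ U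

open Pool.Agent.TH872.Sq (SD fx liF nice_liF SD_card_pos)
open Pool.Agent.HP25.RD (ex)
open Pool.Agent.HP25.PC (wsum small_law)

/-- the real Liouville function -/
noncomputable def lamR (n : ℤ) : ℝ := if n = 0 then 0 else (-1) ^ ArithmeticFunction.cardFactors n.natAbs

lemma lamR_eq (m : ℤ) : ((lam m : ℤ) : ℝ) = lamR m := by
  unfold lam lamR
  split_ifs
  · simp
  · push_cast; rfl

lemma lamR_mul (m n : ℤ) : lamR (m * n) = lamR m * lamR n := by
  unfold lamR
  by_cases hm : m = 0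
  · rw [if_pos (by rw [hm, zero_mul]), if_pos hm, zero_mul]
  by_cases hn : n = 0
  · rw [if_pos (by rw [hn, mul_zero]), if_pos hn, mul_zero]
  rw [if_neg (mul_ne_zero hm hn), if_neg hm, if_neg hn, Int.natAbs_mul,
    ArithmeticFunction.cardFactors_mul (Int.natAbs_ne_zero.2 hm) (Int.natAbs_ne_zero.2 hn), pow_add]

lemma lamR_abs (m : ℤ) : |lamR m| ≤ 1 := by
  unfold lamR
  split_ifs
  · rw [abs_zero]; exact zero_le_one
  · rw [abs_pow, abs_neg, abs_one, one_pow]

lemma ex_eq (x : ℤ) : ex liF x = lamR x := by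
  unfold ex fx lamR liF
  rcases lt_trichotomy x 0 with h | h | h
  · rw [if_neg (by omega), if_pos (by omega), if_neg (by omega), zero_add]
    congr 2
    omega
  · rw [if_neg (by omega), if_neg (by omega), if_pos h, add_zero]
  · rw [if_pos (by omega), if_neg (by omega), if_neg (by omega), add_zero]
    congr 2
    omega

lemma sum_eq (g : Polynomial ℤ) (α : ℕ) (h : ℤ) (q : ℕ) (r u w : ℤ) :
    ((∑ n ∈ (Icc u w).filter (fun n => n ≡ r [ZMOD q]), lam (g.eval n * (α * n + h)) : ℤ) : ℝ) =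
      wsum liF (fun n => lamR (g.eval n)) α h q r u w := by
  unfold wsum
  push_cast
  apply sum_congr rfl
  intro n _
  rw [lamR_eq, lamR_mul, ex_eq]

open Classical in
/-- Let `b ≥ 2`, `e ≥ 2`, `κ`, `B`, `T`, `W` and `U` be fixed, let `k` be large, and let `N = b ^ (e k)`. For all sets
`D 0, ..., D (k - 1)` of at least two digits in base `b`, all real polynomials `P` of degree `e` with a leading coefficient
between `1 / κ` and `κ` in absolute value and with `|P(m)| ≤ κ N` on `S b D k`, all `L ≤ log ^ T N`, all integer polynomials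
`f l` and all `α l ≥ 1`, `l < L`: for all but a proportion of `1 / log ^ U N` of the elements `m` of `S b D k`, ALL the integers
`h` with `|h - P(m)| ≤ log ^ W N` satisfy `Small`. -/
theorem result (b e κ B T W U : ℕ) (hb : 2 ≤ b) (he : 2 ≤ e) : ∃ k₀ : ℕ, ∀ k : ℕ, k₀ ≤ k →
    ∀ D : ℕ → Finset ℕ, (∀ i < k, D i ⊆ range b ∧ 2 ≤ (D i).card) →
    ∀ P : Polynomial ℝ, P.natDegree = e → 1 ≤ κ * |P.leadingCoeff| → |P.leadingCoeff| ≤ κ →
    (∀ m ∈ S b D k, |P.eval (m : ℝ)| ≤ κ * ((b ^ (e * k) : ℕ) : ℝ)) →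
    ∀ L : ℕ, (L : ℝ) ≤ Real.log ((b ^ (e * k) : ℕ) : ℝ) ^ T → ∀ (f : Fin L → Polynomial ℤ) (α : Fin L → ℕ), (∀ l, 1 ≤ α l) →
      (((S b D k).filter (fun m : ℕ => ¬ ∀ h : ℤ, |(h : ℝ) - P.eval (m : ℝ)| ≤ Real.log ((b ^ (e * k) : ℕ) : ℝ) ^ W →
        Small B T U (b ^ (e * k)) f α h)).card : ℝ) ≤ (S b D k).card / Real.log ((b ^ (e * k) : ℕ) : ℝ) ^ U := by
  obtain ⟨e', rfl⟩ : ∃ e', e = e' + 2 := ⟨e - 2, by omega⟩
  obtain ⟨q, C₀, hq, hC₀, hmo⟩ := Pool.Agent.HP25.OS.mo_poly b hb e' κ κ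
  obtain ⟨K₀, hK₀⟩ := small_law (ι := ℕ) q hq C₀ hC₀ liF nice_liF κ B T W U
  refine ⟨K₀ + 1, fun k hk D hD P hP hP1 hP2 hP3 L hL f α hα => ?_⟩
  obtain ⟨N, hN⟩ : ∃ N, N = b ^ ((e' + 2) * k) := ⟨_, rfl⟩
  have hNk : K₀ ≤ N := by
    rw [hN]
    calc K₀ ≤ k := by omega
      _ ≤ (e' + 2) * k := Nat.le_mul_of_pos_left _ (by omega)
      _ ≤ _ := (Nat.lt_pow_self (by omega)).le
  have hMo := hmo k D hD P.leadingCoeff (fun x => P.eval x) hP2 hP1 (Pool.Agent.HP25.OS.pl_pol e' P hP)
  rw [← hN] at hP3 hL hMo ⊢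
  have hS0 : (0 : ℝ) < (S b D k).card := SD_card_pos b hb D k hD
  obtain ⟨Bad, hBad⟩ : ∃ Bad : Finset ℕ, Bad = (S b D k).filter (fun m : ℕ => ¬ ∀ h : ℤ, |(h : ℝ) - P.eval (m : ℝ)| ≤ Real.log N ^ W →
    Small B T U N f α h) := ⟨_, rfl⟩
  rw [← hBad]
  have h1 := hK₀ N hNk (SD b D k) (fun _ => 1 / ((SD b D k).card : ℝ)) (fun n => P.eval (n : ℝ)) hMo (fun i hi => hP3 i hi) L hL
    (fun l n => lamR ((f l).eval n)) (fun l n => lamR_abs _) α hα Bad (by rw [hBad]; exact filter_subset _ _) (fun m hm => by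
      rw [hBad, mem_filter] at hm
      obtain ⟨_, h2⟩ := hm
      push Not at h2
      obtain ⟨h, h3, h4⟩ := h2
      unfold Small at h4
      push Not at h4
      obtain ⟨l, q', h5, h6, r, u, w, h7, h8, h9⟩ := h4
      refine ⟨h, h3, l, q', r, u, w, h5, h6, ?_, ?_, ?_⟩
      · push_cast
        exact h7
      · push_cast
        exact h8
      · rw [← sum_eq]
        exact h9)
  rw [sum_const, nsmul_eq_mul] at h1
  have e1 : ((SD b D k).card : ℝ) = (S b D k).card := rfl
  rw [e1, mul_one_div, div_le_iff₀ hS0] at h1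
  refine h1.trans (le_of_eq ?_)
  ring

end Pool.Agent.Results.MP_d639b3_nt.RealPolynomialConstants
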