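import Pool.Agent.HP25.RD.F

/-!
# Chowla's conjecture at integers with restricted digits, for almost all constant terms

Let `b ≥ 2` and let `D 0, ..., D (K - 1)` be sets of at least two digits in base `b`; `S b D K` is the set of the integers
`0 ≤ m < b ^ K` whose digit number `i` belongs to `D i` for all `i`. For `b = 3` and `D i = {0, 1}` it has only `2 ^ K`
elements, `X ^ 0.63` of the `X = 3 ^ K` integers below `X`; the complement of the thin set is ignored completely.

For nonconstant integer polynomials `F₁, ..., F_r` without constant terms, for an arbitrary integer polynomial `h` and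
arbitrary coefficients `|G m| ≤ 1` (for instance the indicator function of an arbitrary subset of `S b D K`): for all
vectors `k` of integers with `|k_j| ≤ T b ^ (d_j K)` outside a set of proportion `K ^ (-U)`, the sums of
`G m λ (h(m) (F₁(m) + k₁) ⋯ (F_r(m) + k_r))` over the `m` in `S b D K` with `m < v` and `m ≡ a (mod q)` are at most
`|S b D K| / K ^ U`, for all `v`, all `a` and all `q ≤ K ^ κ`.

Method: moments of Weyl sums over integers with random digits and a second moment over all shifts with arbitrary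
coefficients (`Pool/Agent/HP25/PD`, `Pool/Agent/HP25/OS`), telescoping (`Pool/Agent/HP25/RD`).
-/

set_option autoImplicit false

namespace Pool.Agent.Results.MP_d639b3_nt.RestrictedArguments

open Finset
open scoped Polynomial

/-- the Liouville function: `λ(n) = (-1)^Ω(|n|)` for `n ≠ 0`, and `λ(0) = 0` -/
noncomputable def lam (n : ℤ) : ℝ := if n = 0 then 0 else (-1) ^ ArithmeticFunction.cardFactors n.natAbs

/-- the integers `0 ≤ m < b ^ K` whose digit number `i` in base `b` belongs to `D i` for all `i < K` -/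
def S (b : ℕ) (D : ℕ → Finset ℕ) (K : ℕ) : Finset ℕ := (range (b ^ K)).filter (fun m : ℕ => ∀ i < K, m / b ^ i % b ∈ D i)

/-- the integer vectors `k` with `|k j| ≤ T b ^ (deg (F j) K)` for all `j` -/
def Box (b : ℕ) {r : ℕ} (F : Fin r → ℤ[X]) (T K : ℕ) : Set (Fin r → ℤ) :=
  {k | ∀ j, |k j| ≤ ((T * b ^ ((F j).natDegree * K) : ℕ) : ℤ)}

/-- the polynomial `h (F₁ + k₁) ⋯ (F_r + k_r)` -/
noncomputable def poly {r : ℕ} (h : ℤ[X]) (F : Fin r → ℤ[X]) (k : Fin r → ℤ) : ℤ[X] := h * ∏ j, (F j + Polynomial.C (k j))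

open Pool.Agent.TH872.Sq (SD fx liF nice_liF)
open Pool.Agent.HP25.RD (ex)

lemma lam_mul (m n : ℤ) : lam (m * n) = lam m * lam n := by
  unfold lam
  by_cases hm : m = 0
  · rw [if_pos (by rw [hm, zero_mul]), if_pos hm, zero_mul]
  by_cases hn : n = 0
  · rw [if_pos (by rw [hn, mul_zero]), if_pos hn, mul_zero]
  rw [if_neg (mul_ne_zero hm hn), if_neg hm, if_neg hn, Int.natAbs_mul,
    ArithmeticFunction.cardFactors_mul (Int.natAbs_ne_zero.2 hm) (Int.natAbs_ne_zero.2 hn), pow_add]

lemma lam_abs (m : ℤ) : |lam m| ≤ 1 := by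
  unfold lam
  split_ifs
  · rw [abs_zero]; exact zero_le_one
  · rw [abs_pow, abs_neg, abs_one, one_pow]

lemma lam_one : lam 1 = 1 := by
  unfold lam
  rw [if_neg one_ne_zero, Int.natAbs_one, ArithmeticFunction.cardFactors_one, pow_zero]

lemma lam_prod {ι : Type} (s : Finset ι) (v : ι → ℤ) : lam (∏ j ∈ s, v j) = ∏ j ∈ s, lam (v j) := by
  classical
  induction s using Finset.induction_on with
  | empty => rw [prod_empty, prod_empty, lam_one]
  | insert a s ha ih => rw [prod_insert ha, prod_insert ha, lam_mul, ih]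

lemma ex_eq (x : ℤ) : ex liF x = lam x := by
  unfold ex fx lam liF
  rcases lt_trichotomy x 0 with h | h | h
  · rw [if_neg (by omega), if_pos (by omega), if_neg (by omega), zero_add]
    congr 2
    omega
  · rw [if_neg (by omega), if_neg (by omega), if_pos h, add_zero]
  · rw [if_pos (by omega), if_neg (by omega), if_neg (by omega), add_zero]
    congr 2
    omega

lemma box_mem (b : ℕ) {r : ℕ} (F : Fin r → ℤ[X]) (T K : ℕ) (k : Fin r → ℤ) : k ∈ Box b F T K ↔ k ∈ Pool.Agent.HP25.RD.Box b F T K := by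
  unfold Box Pool.Agent.HP25.RD.Box
  rw [Set.mem_ofPred_eq, Fintype.mem_piFinset]
  apply forall_congr'
  intro j
  rw [mem_Icc, abs_le]

lemma poly_eval {r : ℕ} (h : ℤ[X]) (F : Fin r → ℤ[X]) (k : Fin r → ℤ) (m : ℤ) :
    (poly h F k).eval m = h.eval m * ∏ j, ((F j).eval m + k j) := by
  unfold poly
  rw [Polynomial.eval_mul, Polynomial.eval_prod]
  congr 1
  apply prod_congr rfl
  intro j _
  rw [Polynomial.eval_add, Polynomial.eval_C]

/-- **Liouville's function at polynomials with random constant terms, at integers with restricted digits.** Let `b ≥ 2`,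
nonconstant integer polynomials `F 1, ..., F r` without constant terms, `T ≥ 1`, `κ` and `U` be fixed, and let `K` be large.
For all sets `D 0, ..., D (K - 1)` of at least two digits in base `b`, all integer polynomials `h` and all coefficients
`|G m| ≤ 1` the following holds. For all but `b ^ ((d₁ + ... + d_r) K) / K ^ U` of the integer vectors `k` with
`|k j| ≤ T b ^ (d_j K)`, `d_j = deg (F j)`, all the sums of `G m λ (f m)`, `f = h (F 1 + k 1) ⋯ (F r + k r)`, over the
integers `m` of `S b D K` with `m < v` and `m ≡ a (mod q)`, `q ≤ K ^ κ`, are at most `|S b D K| / K ^ U` in absolute value. -/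
theorem result (b : ℕ) (hb : 2 ≤ b) (r : ℕ) (hr : 1 ≤ r) (F : Fin r → ℤ[X])
    (hF : ∀ j, 1 ≤ (F j).natDegree ∧ (F j).coeff 0 = 0) (T κ U : ℕ) (hT : 1 ≤ T) :
    ∃ K₀ : ℕ, ∀ K : ℕ, K₀ ≤ K → ∀ D : ℕ → Finset ℕ, (∀ i < K, D i ⊆ range b ∧ 2 ≤ (D i).card) →
    ∀ (h : ℤ[X]) (G : ℕ → ℝ), (∀ m, |G m| ≤ 1) →
    ∃ Bad : Finset (Fin r → ℤ), (Bad.card : ℝ) ≤ (∏ j, (b : ℝ) ^ ((F j).natDegree * K)) / (K : ℝ) ^ U ∧
    ∀ k ∈ Box b F T K, k ∉ Bad → ∀ v q a : ℕ, 1 ≤ q → q ≤ K ^ κ →
      |∑ m ∈ (S b D K).filter (fun m : ℕ => m < v ∧ m % q = a), G m * lam ((poly h F k).eval (m : ℤ))| ≤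
        ((S b D K).card : ℝ) / (K : ℝ) ^ U := by
  classical
  obtain ⟨K₀, h0⟩ := Pool.Agent.HP25.RD.nice_windows b hb r hr F (fun j => (hF j).1) (fun j => (hF j).2) liF nice_liF T κ U hT
  refine ⟨K₀, fun K hK D hD h G hG => ?_⟩
  obtain ⟨Bad, hB1, hB2⟩ := h0 K hK D hD (fun m => G m * lam (h.eval (m : ℤ))) (fun m => by
    rw [abs_mul]
    have h1 := hG m
    have h2 := lam_abs (h.eval (m : ℤ))
    have h3 := abs_nonneg (G m)
    have h4 := abs_nonneg (lam (h.eval (m : ℤ)))
    nlinarith)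
  refine ⟨Bad, hB1, fun k hk hkB v q a hq hqK => ?_⟩
  refine le_trans (le_of_eq ?_) (hB2 k ((box_mem b F T K k).1 hk) hkB v q a hq hqK)
  congr 1
  apply sum_congr rfl
  intro m _
  rw [poly_eval, lam_mul, lam_prod, mul_assoc]
  congr 2
  apply prod_congr rfl
  intro j _
  rw [ex_eq]

end Pool.Agent.Results.MP_d639b3_nt.RestrictedArguments
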